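import Pool.Agent.Y648.HO.Lrn

/-!
# All patterns have codes
-/

set_option autoImplicit false

namespace Pool.Agent.Y648.HO

namespace Cod

/-- the parts of a concatenation of strings of the same length -/
theorem part_flatten (w : ℕ) (Ls : List (List Bool)) (h : ∀ x ∈ Ls, x.length = w) (i : ℕ)
    (hi : i < Ls.length) : part w i Ls.flatten = Ls[i] := by
  induction Ls generalizing i with
  | nil => exact absurd hi (by simp)
  | cons x Ls ih =>
    have hx : x.length = w := h x (by simp)
    cases i with
    | zero =>
      unfold part
      rw [zero_mul, List.drop_zero, List.flatten_cons, ← hx, List.take_left]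
      rfl
    | succ i =>
      have h1 := ih (fun y hy => h y (List.mem_cons_of_mem _ hy)) i
        (by simpa using hi)
      unfold part at h1 ⊢
      rw [List.flatten_cons, show (i + 1) * w = x.length + i * w by rw [hx]; ring,
        ← List.drop_drop, List.drop_left, h1]
      rfl

theorem entries_flatten (w : ℕ) (Ls : List (List Bool)) (h : ∀ x ∈ Ls, x.length = w) :
    entries w Ls.length Ls.flatten = Ls := by
  unfold entries
  apply List.ext_getElem
  · rw [List.length_map, List.length_range]
  · intro i h1 h2
    rw [List.getElem_map, List.getElem_range]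
    exact part_flatten w Ls h i h2

/-- the length of a concatenation of strings of the same length -/
theorem length_flatten' (w : ℕ) (Ls : List (List Bool)) (h : ∀ x ∈ Ls, x.length = w) :
    Ls.flatten.length = Ls.length * w := by
  induction Ls with
  | nil => simp
  | cons x Ls ih =>
    rw [List.flatten_cons, List.length_append, ih (fun y hy => h y (List.mem_cons_of_mem _ hy)),
      h x (by simp), List.length_cons]
    ring

/-- the entries for two samples -/
def ent {I : Type} (χ : I → List Bool → Bool) (a : I) (b : List (List Bool) × List (List Bool)) :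
    List (List Bool) :=
  b.1.map (fun x => true :: χ a x :: x) ++ b.2.map (fun x => false :: false :: x)

theorem ent_length {I : Type} (χ : I → List Bool → Bool) (a : I)
    (b : List (List Bool) × List (List Bool)) : (ent χ a b).length = b.1.length + b.2.length := by
  unfold ent
  rw [List.length_append, List.length_map, List.length_map]

theorem ent_mem {I : Type} (χ : I → List Bool → Bool) (a : I) (l : ℕ)
    (b : List (List Bool) × List (List Bool)) (h1 : ∀ x ∈ b.1, x.length = l)
    (h2 : ∀ x ∈ b.2, x.length = l) : ∀ x ∈ ent χ a b, x.length = l + 2 := by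
  intro x hx
  unfold ent at hx
  rw [List.mem_append, List.mem_map, List.mem_map] at hx
  rcases hx with ⟨y, hy, rfl⟩ | ⟨y, hy, rfl⟩
  · simp [h1 y hy]
  · simp [h2 y hy]

theorem filterMap_some' {α β γ : Type} (f : β → Option γ) (g : α → β) (h : α → γ)
    (hf : ∀ x, f (g x) = some (h x)) (L : List α) : (L.map g).filterMap f = L.map h := by
  induction L with
  | nil => rfl
  | cons x L ih =>
    rw [List.map_cons, List.filterMap_cons, hf x, ih, List.map_cons]

theorem filterMap_none' {α β γ : Type} (f : β → Option γ) (g : α → β)
    (hf : ∀ x, f (g x) = none) (L : List α) : (L.map g).filterMap f = [] := by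
  induction L with
  | nil => rfl
  | cons x L ih =>
    rw [List.map_cons, List.filterMap_cons, hf x, ih]

theorem Dof_ent {I : Type} (χ : I → List Bool → Bool) (a : I) (l k : ℕ)
    (b : List (List Bool) × List (List Bool)) (h1 : ∀ x ∈ b.1, x.length = l)
    (h2 : ∀ x ∈ b.2, x.length = l) (hk : b.1.length + 1 + b.2.length = k) :
    Dof l k (ent χ a b).flatten = lb χ a b.1 := by
  have h3 : k - 1 = (ent χ a b).length := by rw [ent_length]; omega
  unfold Dof
  rw [h3, entries_flatten _ _ (ent_mem χ a l b h1 h2)]
  unfold ent lb
  rw [List.filterMap_append, filterMap_none' _ (fun x => false :: false :: x) (fun x => rfl),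
    filterMap_some' _ (fun x => true :: χ a x :: x) (fun x => (x, χ a x)) (fun x => rfl),
    List.append_nil]

theorem Uof_ent {I : Type} (χ : I → List Bool → Bool) (a : I) (l k : ℕ)
    (b : List (List Bool) × List (List Bool)) (h1 : ∀ x ∈ b.1, x.length = l)
    (h2 : ∀ x ∈ b.2, x.length = l) (hk : b.1.length + 1 + b.2.length = k) :
    Uof l k (ent χ a b).flatten = b.2 := by
  have h3 : k - 1 = (ent χ a b).length := by rw [ent_length]; omega
  unfold Uof
  rw [h3, entries_flatten _ _ (ent_mem χ a l b h1 h2)]
  unfold ent
  rw [List.filterMap_append, filterMap_none' _ (fun x => true :: χ a x :: x) (fun x => rfl),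
    filterMap_some' _ (fun x => false :: false :: x) (fun x => x) (fun x => rfl),
    List.nil_append, List.map_id']

theorem count_eq (v : List Bool) : v.count true =
    ((Finset.range v.length).filter (fun t => v.getD t false = true)).card := by
  induction v with
  | nil => simp
  | cons b v ih =>
    rw [Finset.card_filter, List.length_cons, Finset.sum_range_succ', List.count_cons, ih,
      Finset.card_filter]
    simp

/-- all strings of length `l` -/
def strs (l : ℕ) : Finset (List Bool) := Finset.univ.image fun f : Fin l → Bool => List.ofFn f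

theorem mem_strs {l : ℕ} {x : List Bool} : x ∈ strs l ↔ x.length = l := by
  unfold strs
  rw [Finset.mem_image]
  constructor
  · rintro ⟨f, -, rfl⟩
    exact List.length_ofFn
  · rintro rfl
    exact ⟨x.get, Finset.mem_univ _, List.ofFn_get x⟩

theorem card_strs (l : ℕ) : (strs l).card ≤ 2 ^ l := by
  unfold strs
  refine Finset.card_image_le.trans ?_
  rw [Finset.card_univ, Fintype.card_fun, Fintype.card_bool, Fintype.card_fin]

end Cod

open Cod

theorem t_COD : S_MIS → S_AVG → S_BST → S_COD := by
  classical
  intro hMIS hAVG hBST I χ l k r g T hr h4 h8 hT hcnt a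
  have hk1 : 1 ≤ k := by omega
  obtain ⟨f, hf, hfw⟩ := hBST (List Bool) (List (List Bool) × List (List Bool)) (strs l)
    {b | b.1.length + 1 + b.2.length = k ∧ (∀ x ∈ b.1, x ∈ strs l) ∧ (∀ x ∈ b.2, x ∈ strs l)}
    (fun b q => Wr χ k r a b.1 b.2 q) T (by
      intro w hw
      obtain ⟨D, U, h1, h2, h3, h5⟩ := hAVG (List Bool) (strs l) [] w
        (fun D U q => Wr χ k r a D U q) k (r * g + 1) hw
        ⟨List.replicate l false, mem_strs.2 (by simp)⟩ hk1 h8 (by
          intro X hX hXs
          exact hMIS I χ k r g hr h4 X hX (hcnt X hX fun x hx => mem_strs.1 (hXs x hx)) a)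
      exact ⟨(D, U), ⟨h1, h2, h3⟩, h5⟩) (by
      calc (strs l).card ^ 4 ≤ (2 ^ l) ^ 4 := Nat.pow_le_pow_left (card_strs l) 4
        _ = 2 ^ (4 * l) := by rw [← pow_mul, mul_comm]
        _ < 2 ^ T := Nat.pow_lt_pow_right (by norm_num) hT)
  have hB : ∀ t < T, (f t).1.length + 1 + (f t).2.length = k ∧
      (∀ x ∈ (f t).1, x.length = l) ∧ (∀ x ∈ (f t).2, x.length = l) := fun t ht =>
    ⟨(hf t ht).1, fun x hx => mem_strs.1 ((hf t ht).2.1 x hx),
      fun x hx => mem_strs.1 ((hf t ht).2.2 x hx)⟩
  set Bl : List (List Bool) := (List.range T).map fun t => (ent χ a (f t)).flatten with hBl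
  have hBlen : ∀ t < T, (ent χ a (f t)).flatten.length = (l + 2) * (k - 1) := by
    intro t ht
    obtain ⟨h1, h2, h3⟩ := hB t ht
    rw [length_flatten' (l + 2) _ (ent_mem χ a l (f t) h2 h3), ent_length,
      show (f t).1.length + (f t).2.length = k - 1 by omega, mul_comm]
  have hBmem : ∀ x ∈ Bl, x.length = (l + 2) * (k - 1) := by
    intro x hx
    rw [hBl, List.mem_map] at hx
    obtain ⟨t, ht, rfl⟩ := hx
    exact hBlen t (List.mem_range.1 ht)
  have hBllen : Bl.length = T := by rw [hBl, List.length_map, List.length_range]
  have hpart : ∀ t < T, part ((l + 2) * (k - 1)) t Bl.flatten = (ent χ a (f t)).flatten := by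
    intro t ht
    rw [part_flatten _ _ hBmem t (by rw [hBllen]; exact ht)]
    simp only [hBl, List.getElem_map, List.getElem_range]
  refine ⟨Bl.flatten, ?_, fun q hq => ?_⟩
  · rw [length_flatten' _ _ hBmem, hBllen]
    unfold clen
    ring
  have hw := hfw q (mem_strs.2 hq)
  have hdec : dec (Rl χ) l k r T Bl.flatten q ↔ ∃ v : List Bool, v.length = T ∧
      T < 2 * v.count true ∧ ∀ t < T, v.getD t false = true →
        Pre (Rl χ) k r (lb χ a (f t).1) (f t).2 q := by
    unfold dec
    refine exists_congr fun v => and_congr_right fun _ => and_congr_right fun _ =>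
      forall_congr' fun t => forall_congr' fun ht => ?_
    obtain ⟨h1, h2, h3⟩ := hB t ht
    rw [hpart t ht, Dof_ent χ a l k (f t) h2 h3 h1, Uof_ent χ a l k (f t) h2 h3 h1]
  rw [hdec]
  constructor
  · rintro ⟨v, hv, hv1, hv2⟩
    by_contra hq0
    have h1 : ((Finset.range T).filter (fun t => v.getD t false = true)).card ≤
        ((Finset.range T).filter fun t => Wr χ k r a (f t).1 (f t).2 q).card := by
      apply Finset.card_le_card
      intro t ht
      rw [Finset.mem_filter] at ht ⊢
      refine ⟨ht.1, ?_⟩
      intro h2
      exact hq0 (h2.1 (hv2 t (Finset.mem_range.1 ht.1) ht.2))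
    have h2 := count_eq v
    rw [hv] at h2
    omega
  · intro hq1
    refine ⟨(List.range T).map fun t => decide (Pre (Rl χ) k r (lb χ a (f t).1) (f t).2 q),
      by rw [List.length_map, List.length_range], ?_, ?_⟩
    · rw [count_eq, List.length_map, List.length_range]
      have h1 : (Finset.range T).filter (fun t => ((List.range T).map fun t =>
          decide (Pre (Rl χ) k r (lb χ a (f t).1) (f t).2 q)).getD t false = true) =
          (Finset.range T).filter (fun t => ¬ Wr χ k r a (f t).1 (f t).2 q) := by
        apply Finset.filter_congr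
        intro t ht
        have ht' := Finset.mem_range.1 ht
        rw [List.getD_eq_getElem _ _ (by rw [List.length_map, List.length_range]; exact ht'),
          List.getElem_map, List.getElem_range, decide_eq_true_iff]
        unfold Wr
        rw [not_not]
        exact ⟨fun h => ⟨fun _ => hq1, fun _ => h⟩, fun h => h.2 hq1⟩
      rw [h1]
      have h2 := Finset.card_filter_add_card_filter_not (s := Finset.range T)
        (fun t => Wr χ k r a (f t).1 (f t).2 q)
      rw [Finset.card_range] at h2
      omega
    · intro t ht h1
      rw [List.getD_eq_getElem _ _ (by rw [List.length_map, List.length_range]; exact ht),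
        List.getElem_map, List.getElem_range, decide_eq_true_iff] at h1
      exact h1

end Pool.Agent.Y648.HO
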